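import Pool.Agent.K3h88.LCT.Stm

/-!
# Locally constructible triangulations of contractible 4-manifolds: assembly
-/

set_option autoImplicit false

namespace Pool.Agent.K3h88.LCT

open Finset Pool.Agent.Helper611 Pool.Agent.K3h88.LCM

open scoped Manifold

variable {n : ℕ}

theorem tets_card {F : Finset (Finset (Fin n))} {k : ℕ} {t : Finset (Fin n)}
    (ht : t ∈ tets F k) : t.card = 4 := (mem_filter.1 ht).2.1

theorem tets_faces {F : Finset (Finset (Fin n))} {k : ℕ} {t : Finset (Fin n)}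
    (ht : t ∈ tets F k) : t ∈ faces F := (mem_filter.1 ht).1

theorem sum_of_supp {x : Fin n → ℝ} {s : Finset (Fin n)} (h : ∀ v, v ∉ s → x v = 0) :
    ∑ v, x v = ∑ v ∈ s, x v :=
  (sum_subset (subset_univ _) (fun v _ hv => h v hv)).symm

/-- the two realizations have the same points -/
theorem rz_iff {S : Finset (Finset (Fin n))} {x : Fin n → ℝ} :
    ((∀ v, 0 ≤ x v) ∧ ∃ s ∈ S, (∀ v, v ∉ s → x v = 0) ∧ ∑ v ∈ s, x v = 1) ↔ x ∈ Sp S := by
  constructor
  · rintro ⟨h0, s, hs, h1, h2⟩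
    refine ⟨h0, ?_, s, ?_, h1⟩
    · rw [sum_of_supp h1, h2]
    · apply mem_insert_of_mem
      rw [mem_faces]
      refine ⟨?_, s, hs, Subset.refl _⟩
      rw [nonempty_iff_ne_empty]
      rintro rfl
      simp at h2
  · rintro ⟨h0, h1, σ, hσ, h2⟩
    have hne : σ.Nonempty := by
      rw [nonempty_iff_ne_empty]
      rintro rfl
      rw [sum_of_supp h2] at h1
      simp at h1
    rcases mem_insert.1 hσ with h | h
    · exact absurd h hne.ne_empty
    · obtain ⟨-, A, hA, hσA⟩ := mem_faces.1 h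
      have h3 : ∀ v, v ∉ A → x v = 0 := fun v hv => h2 v (fun h => hv (hσA h))
      exact ⟨h0, A, hA, h3, by rw [← sum_of_supp h3, h1]⟩

/-- the two realizations are homeomorphic -/
def rzHomeo (S : Finset (Finset (Fin n))) : Rz S ≃ₜ Sp S where
  toFun x := ⟨x.1, rz_iff.1 x.2⟩
  invFun x := ⟨x.1, rz_iff.2 x.2⟩
  left_inv _ := rfl
  right_inv _ := rfl
  continuous_toFun := by
    refine Continuous.subtype_mk ?_ _
    exact continuous_subtype_val
  continuous_invFun := by
    refine Continuous.subtype_mk ?_ _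
    exact continuous_subtype_val

theorem bdry_sub {F : Finset (Finset (Fin n))} {x : Fin n → ℝ}
    (hx : (∀ v, 0 ≤ x v) ∧ ∃ s ∈ tets F 1, (∀ v, v ∉ s → x v = 0) ∧ ∑ v ∈ s, x v = 1) :
    x ∈ Sp F := by
  obtain ⟨h0, s, hs, h1, h2⟩ := hx
  refine ⟨h0, ?_, s, mem_insert_of_mem (tets_faces hs), h1⟩
  rw [sum_of_supp h1, h2]

/-- the realization of the boundary complex as a subspace of the realization of the complex -/
def bdryHomeo (F : Finset (Finset (Fin n))) :
    Rz (tets F 1) ≃ₜ {x : Sp F // ∃ t ∈ tets F 1, ∀ v, v ∉ t → x.1 v = 0} where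
  toFun x := ⟨⟨x.1, bdry_sub x.2⟩, by
    obtain ⟨-, s, hs, h1, -⟩ := x.2
    exact ⟨s, hs, h1⟩⟩
  invFun x := ⟨x.1.1, by
    obtain ⟨t, ht, h1⟩ := x.2
    refine ⟨x.1.2.1, t, ht, h1, ?_⟩
    rw [← sum_of_supp h1]
    exact x.1.2.2.1⟩
  left_inv _ := rfl
  right_inv _ := rfl
  continuous_toFun := by
    refine Continuous.subtype_mk (Continuous.subtype_mk ?_ _) _
    exact continuous_subtype_val
  continuous_invFun := by
    refine Continuous.subtype_mk ?_ _
    exact continuous_subtype_val.comp continuous_subtype_val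

theorem nice_of {F : Finset (Finset (Fin n))} (h : LCon F) : Nice F := by
  obtain ⟨-, h2, h3, T, k, σ, -, -, -, h5⟩ := h
  exact ⟨h2, h3, h5⟩

section main

variable {F : Finset (Finset (Fin n))} {W : Type} [TopologicalSpace W]
  [ChartedSpace (EuclideanHalfSpace 4) W]

theorem euler_bdry (hrnk : StmRnk) (htpc : StmTpc) (hsum : StmSum) (hcht : StmCht)
    (hF : LCon F) (h : Sp F ≃ₜ W) : euler (tets F 1) = 0 := by
  have hn := nice_of hF
  have hcard : ∀ σ ∈ (kx F).faces, σ.card ≤ 5 := by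
    intro σ hσ
    rcases mem_insert.1 hσ with rfl | hσ
    · simp
    · obtain ⟨-, A, hA, hσA⟩ := mem_faces.1 hσ
      rw [← hn.pure A hA]
      exact card_le_card hσA
  apply hsum n F
  intro τ hτ
  have hne := (mem_faces.1 hτ).1
  rw [hrnk n (kx F) τ hne hcard, htpc n F hn τ hτ]
  · split_ifs <;> simp
  · intro k hk
    refine UMan.acy_H (kx F) (0 : Fin 4) ?_ τ hne k hk
    intro x
    obtain ⟨⟨c, hc, -⟩, -⟩ := hcht (Sp F) W h x
    exact ⟨c, hc⟩

theorem bdry_iff (hnoi : StmNoi) (hbdr : StmBdr) (hcht : StmCht) (hF : LCon F) (h : Sp F ≃ₜ W)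
    (x : Sp F) : (∃ t ∈ tets F 1, ∀ v, v ∉ t → x.1 v = 0) ↔ h x ∈ (𝓡∂ 4).boundary W := by
  have hn := nice_of hF
  obtain ⟨⟨c, hc, h1⟩, h2⟩ := hcht (Sp F) W h x
  constructor
  · intro ht
    by_contra hb
    obtain ⟨c', hc'⟩ := h2 hb
    exact hnoi n F hn.pure x ht c' hc'
  · intro hb
    exact hbdr n F hn x c hc (h1 hb)

/-- **Main theorem.** -/
theorem asm (hchi : StmChi) (heul : StmEul) (hrnk : StmRnk) (htpc : StmTpc) (hsum : StmSum)
    (hnoi : StmNoi) (hbdr : StmBdr) (hcht : StmCht) (hcon : StmCon) (hpit : StmPit)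
    [ContractibleSpace W] (hW : IsConnected ((𝓡∂ 4).boundary W)) (hF : LCon F)
    (h : Sp F ≃ₜ W) (b : (𝓡∂ 4).boundary W)
    (φ : FundamentalGroup ((𝓡∂ 4).boundary W) b →* LCM.G)
    (γ : FundamentalGroup ((𝓡∂ 4).boundary W) b) : φ γ = 1 := by
  have hχ : euler F - euler (tets F 1) = 1 := by
    have : ContractibleSpace (kw F).space := by
      rw [space_kw]
      exact h.contractibleSpace
    rw [euler_bdry hrnk htpc hsum hcht hF h, heul n F, hchi n (kw F), sub_zero]
  let e : Rz (tets F 1) ≃ₜ (𝓡∂ 4).boundary W :=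
    (bdryHomeo F).trans (h.subtype (bdry_iff hnoi hbdr hcht hF h))
  have : ConnectedSpace ((𝓡∂ 4).boundary W) := isConnected_iff_connectedSpace.1 hW
  have hc : ConnectedSpace (Rz (tets F 1)) := e.symm.surjective.connectedSpace e.symm.continuous
  have hB : BConn F := hcon n (tets F 1) (fun s hs => (mem_faces.1 (tets_faces hs)).1)
    hc.toPreconnectedSpace
  exact hpit _ _ LCM.G e (fun x ψ δ => finalTop hF hχ hB x ψ δ) b φ γ

end main

end Pool.Agent.K3h88.LCT
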