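import Pool.Agent.K3h88.LCT.Asm
import Pool.Agent.K3h57.LCT.Chi
import Pool.Agent.K3h41.LCT.Rnk
import Pool.Agent.K3h88.LCT.Sum
import Pool.Agent.K3h3.LCT.Tpc
import Pool.Agent.K3h40.LCT.Noi
import Pool.Agent.K3h40.LCT.Cht
import Pool.Agent.K3h94.LCT.Bdr
import Pool.Agent.K3h20.LCT.ConPit

/-!
# Locally constructible triangulations of contractible 4-manifolds: the final theorem
-/

set_option autoImplicit false

namespace Pool.Agent.K3h88.LCT

open Finset Pool.Agent.K3h88.LCM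

open scoped Manifold

theorem final {W : Type} [TopologicalSpace W] [ChartedSpace (EuclideanHalfSpace 4) W]
    [ContractibleSpace W] (hW : IsConnected ((𝓡∂ 4).boundary W)) {n : ℕ}
    {F : Finset (Finset (Fin n))} (hF : LCon F) (h : Rz F ≃ₜ W) (b : (𝓡∂ 4).boundary W)
    (φ : FundamentalGroup ((𝓡∂ 4).boundary W) b →* LCM.G)
    (γ : FundamentalGroup ((𝓡∂ 4).boundary W) b) : φ γ = 1 :=
  asm K3h57.LCT.chi K3h88.LCT.SumEul.eul K3h41.LCT.rnk K3h3.LCT.tpc K3h88.LCT.SumEul.sum' K3h40.LCT.noi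
    K3h94.LCT.bdr K3h40.LCT.cht K3h20.LCT.con K3h20.LCT.pit hW hF ((rzHomeo F).symm.trans h) b φ γ

end Pool.Agent.K3h88.LCT
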