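import Pool.Agent.K3h88.LCM.FinalTop
import Pool.Agent.Helper611.UMan
import Pool.Agent.Helper585.Wk.Eul

/-!
# Locally constructible triangulations of contractible 4-manifolds: statements of the bricks
-/

set_option autoImplicit false

namespace Pool.Agent.K3h88.LCT

open Finset Pool.Agent.Helper611 Pool.Agent.K3h88.LCM

open scoped Manifold

theorem mem_faces {V : Type} [DecidableEq V] {F : Finset (Finset V)} {s : Finset V} :
    s ∈ faces F ↔ s.Nonempty ∧ ∃ A ∈ F, s ⊆ A := by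
  simp only [faces, mem_filter, mem_biUnion, mem_powerset]
  tauto

theorem down_faces {n : ℕ} (F : Finset (Finset (Fin n))) :
    ∀ σ ∈ insert ∅ (faces F), ∀ τ, τ ⊆ σ → τ ∈ insert ∅ (faces F) := by
  intro σ hσ τ hτ
  rw [mem_insert, mem_faces] at hσ ⊢
  rcases τ.eq_empty_or_nonempty with h | h
  · exact Or.inl h
  · right
    rcases hσ with rfl | ⟨-, A, hA, hσA⟩
    · exact absurd (subset_empty.1 hτ) h.ne_empty
    · exact ⟨h, A, hA, hτ.trans hσA⟩

/-- the complex generated by `F`, for the library of helper611 -/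
def kx {n : ℕ} (F : Finset (Finset (Fin n))) : ZBase.Cx (Fin n) :=
  ⟨insert ∅ (faces F), mem_insert_self _ _, down_faces F⟩

/-- the complex generated by `F`, for the library of helper585 -/
def kw {n : ℕ} (F : Finset (Finset (Fin n))) : Helper585.Wk.Cx n :=
  ⟨insert ∅ (faces F), mem_insert_self _ _, down_faces F⟩

/-- the realization of the complex generated by `F` -/
abbrev Sp {n : ℕ} (F : Finset (Finset (Fin n))) : Set (Fin n → ℝ) := ZBase.realization (kx F)

theorem space_kw {n : ℕ} (F : Finset (Finset (Fin n))) : (kw F).space = Sp F := rfl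

/-- the local properties of a locally constructible complex -/
structure Nice {n : ℕ} (F : Finset (Finset (Fin n))) : Prop where
  pure : ∀ A ∈ F, A.card = 5
  two : ∀ τ : Finset (Fin n), τ.card = 4 → (F.filter (fun A => τ ⊆ A)).card ≤ 2
  res : ∀ s : Finset (Fin n), s.Nonempty → ∀ A ∈ F, ∀ B ∈ F, s ⊆ A → s ⊆ B →
    Same F (tets F 2) s A B

/-- brick CHI: the Euler characteristic of a contractible complex -/
def StmChi : Prop := ∀ (n : ℕ) (K : Helper585.Wk.Cx n) [ContractibleSpace K.space], K.chi = 1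

/-- brick EUL -/
def StmEul : Prop := ∀ (n : ℕ) (S : Finset (Finset (Fin n))), euler S = (kw S).chi

/-- the cycles of dimension four in the star of `τ`, modulo two -/
def topcyc {n : ℕ} (K : ZBase.Cx (Fin n)) (τ : Finset (Fin n)) :
    Submodule (ZMod 2) (Finset (Fin n) → ZMod 2) where
  carrier := {c | (∀ σ, ¬ (σ ∈ K.faces ∧ τ ⊆ σ ∧ σ.card = 5) → c σ = 0) ∧
    ∀ ρ, τ ⊆ ρ → ZBase.bd c ρ = 0}
  zero_mem' := ⟨fun _ _ => rfl, fun ρ _ => ZBase.bd_zero ρ⟩
  add_mem' := by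
    rintro a b ⟨a1, a2⟩ ⟨b1, b2⟩
    refine ⟨fun σ hσ => ?_, fun ρ hρ => ?_⟩
    · show a σ + b σ = 0
      rw [a1 σ hσ, b1 σ hσ, add_zero]
    · rw [ZBase.bd_add, a2 ρ hρ, b2 ρ hρ, add_zero]
  smul_mem' := by
    rintro r a ⟨a1, a2⟩
    refine ⟨fun σ hσ => ?_, fun ρ hρ => ?_⟩
    · show r • a σ = 0
      rw [a1 σ hσ, smul_zero]
    · have h : ZBase.bd (r • a) ρ = r • ZBase.bd a ρ := by
        unfold ZBase.bd
        rw [Finset.smul_sum]
        refine Finset.sum_congr rfl fun x _ => ?_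
        show _ • (r • a (insert x ρ)) = r • (_ • a (insert x ρ))
        rw [smul_comm]
      rw [h, a2 ρ hρ, smul_zero]

/-- brick RNK: Euler characteristic of the star complex -/
def StmRnk : Prop := ∀ (n : ℕ) (K : ZBase.Cx (Fin n)) (τ : Finset (Fin n)), τ.Nonempty →
  (∀ σ ∈ K.faces, σ.card ≤ 5) → (∀ k ≤ 4, ZBase.Acy K ℤ τ k) →
  ∑ σ ∈ K.faces.filter (fun σ => τ ⊆ σ), (-1 : ℤ) ^ σ.card =
    - (Module.finrank (ZMod 2) (topcyc K τ) : ℤ)

/-- brick TPC: the cycles in the star of a face -/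
def StmTpc : Prop := ∀ (n : ℕ) (F : Finset (Finset (Fin n))), Nice F → ∀ τ ∈ faces F,
  Module.finrank (ZMod 2) (topcyc (kx F) τ) = if τ ∈ faces (tets F 1) then 0 else 1

/-- brick SUM -/
def StmSum : Prop := ∀ (n : ℕ) (F : Finset (Finset (Fin n))),
  (∀ τ ∈ faces F, ∑ σ ∈ (kx F).faces.filter (fun σ => τ ⊆ σ), (-1 : ℤ) ^ σ.card =
    if τ ∈ faces (tets F 1) then 0 else -1) → euler (tets F 1) = 0

/-- brick NOI: points of the boundary have no Euclidean charts -/
def StmNoi : Prop := ∀ (n : ℕ) (F : Finset (Finset (Fin n))), (∀ A ∈ F, A.card = 5) →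
  ∀ x : Sp F, (∃ t ∈ tets F 1, ∀ v, v ∉ t → x.1 v = 0) →
  ∀ c : OpenPartialHomeomorph (Sp F) (EuclideanSpace ℝ (Fin 4)), x ∉ c.source

/-- brick BDR: boundary points of half-space charts are in the boundary complex -/
def StmBdr : Prop := ∀ (n : ℕ) (F : Finset (Finset (Fin n))), Nice F →
  ∀ (x : Sp F) (c : OpenPartialHomeomorph (Sp F) {w : EuclideanSpace ℝ (Fin 4) // 0 ≤ w 0}),
  x ∈ c.source → (c x).1 0 = 0 → ∃ t ∈ tets F 1, ∀ v, v ∉ t → x.1 v = 0

/-- brick CHT: charts -/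
def StmCht : Prop := ∀ (X W : Type) [TopologicalSpace X] [TopologicalSpace W]
  [ChartedSpace (EuclideanHalfSpace 4) W] (h : X ≃ₜ W) (x : X),
  (∃ c : OpenPartialHomeomorph X {w : EuclideanSpace ℝ (Fin 4) // 0 ≤ w 0},
    x ∈ c.source ∧ (h x ∈ (𝓡∂ 4).boundary W → (c x).1 0 = 0)) ∧
  (h x ∉ (𝓡∂ 4).boundary W →
    ∃ c : OpenPartialHomeomorph X (EuclideanSpace ℝ (Fin 4)), x ∈ c.source)

/-- brick CON: connectedness -/
def StmCon : Prop := ∀ (n : ℕ) (S : Finset (Finset (Fin n))), (∀ s ∈ S, s.Nonempty) →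
  PreconnectedSpace (Rz S) → ∀ s ∈ S, ∀ t ∈ S,
    Relation.ReflTransGen (fun s t => s ∈ S ∧ t ∈ S ∧ (s ∩ t).Nonempty) s t

/-- brick PIT: fundamental groups of homeomorphic spaces -/
def StmPit : Prop := ∀ (X Y H : Type) [TopologicalSpace X] [TopologicalSpace Y] [Group H]
  (_ : X ≃ₜ Y), (∀ (x : X) (φ : FundamentalGroup X x →* H) (γ : FundamentalGroup X x), φ γ = 1) →
  ∀ (y : Y) (φ : FundamentalGroup Y y →* H) (γ : FundamentalGroup Y y), φ γ = 1

end Pool.Agent.K3h88.LCT
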